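import Pool.Agent.K1H79.GE.Thm
import Pool.Agent.K1H79.Q3.All

/-! # All quartic fields -/

set_option autoImplicit false

namespace Pool.Agent.K1H79.Q4

open NumberField

theorem quart : ∃ δ C : ℝ, 0 < δ ∧ δ ≤ 1 / 2 ∧ 0 < C ∧ ∀ (L : Type) [Field L] [NumberField L],
    Module.finrank ℚ L = 4 →
    (Nat.card {c : ClassGroup (𝓞 L) // c ^ 3 = 1} : ℝ) ≤ C * |(discr L : ℝ)| ^ (1 / 2 - δ : ℝ) := by
  obtain ⟨δ1, C1, hδ1, hC1, h1⟩ := GE.two 2 (by norm_num)
  obtain ⟨δ2, C2, hδ2, hC2, h2⟩ := Q3.qw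
  refine ⟨min (min δ1 δ2) (1 / 2), max C1 C2, by positivity, min_le_right _ _,
    lt_max_of_lt_left hC1, ?_⟩
  intro L _ _ hL
  have hD1 : 1 ≤ |(discr L : ℝ)| := by
    have h0 : discr L ≠ 0 := discr_ne_zero L
    have : (1 : ℤ) ≤ |discr L| := Int.one_le_abs h0
    exact_mod_cast this
  have key : ∀ (δ' C' : ℝ), 0 < C' → min (min δ1 δ2) (1 / 2) ≤ δ' → C' ≤ max C1 C2 →
      C' * |(discr L : ℝ)| ^ (1 / 2 - δ' : ℝ) ≤
        max C1 C2 * |(discr L : ℝ)| ^ (1 / 2 - min (min δ1 δ2) (1 / 2) : ℝ) := by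
    intro δ' C' hC' hδ' hC''
    apply mul_le_mul hC'' _ (by positivity) (by positivity)
    apply Real.rpow_le_rpow_of_exponent_le hD1
    linarith
  by_cases hno : GE.NoOm L
  · exact (h1 L hL hno).trans (key δ1 C1 hC1 ((min_le_left _ _).trans (min_le_left _ _)) (le_max_left _ _))
  · have hz : ∃ z : L, z ^ 2 + z + 1 = 0 := by
      unfold GE.NoOm at hno
      push Not at hno
      exact hno
    exact (h2 L hL hz).trans (key δ2 C2 hC2 ((min_le_left _ _).trans (min_le_right _ _)) (le_max_right _ _))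

end Pool.Agent.K1H79.Q4
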